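import Pool.Agent.Lib.MP_1e3767_al.H27Fin
import Pool.Agent.Lib.MP_1e3767_al.Stmt
import Pool.Agent.Lib.MP_1e3767_al.BridgeW
import Pool.Agent.Lib.MP_1e3767_al.BridgeR

namespace Pool.Agent.Results.MP_1e3767_al.Refined

open Pool.Agent.Lib.MP_1e3767_al

/-- Saturation of the refined tensor product multiplicities for every Weyl group element. -/
theorem result {ι M N : Type} [Finite ι] [AddCommGroup M] [Module ℂ M] [AddCommGroup N]
    [Module ℂ N] (P : RootPairing ι ℂ M N) [P.IsRootSystem] [P.IsCrystallographic] [P.IsReduced]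
    [P.IsIrreducible] (b : P.Base) (l0 l : List b.support)
    (h0 : l0.foldr (sRefl b.cartanMatrix) (fun _ => 1) = fun _ => -1)
    (lam mu nu : b.support → ℤ) (hl : ∀ i, 0 ≤ lam i) (hm : ∀ i, 0 ≤ mu i)
    (hQ : ∃ q : b.support → ℤ, ∀ j, lam j + mu j - nu j = ∑ i, q i * b.cartanMatrix i j)
    (n : ℕ) (hn : 0 < n) (c : (b.support → ℤ) →₀ ℤ)
    (hc : IsExpansion b.cartanMatrix l0 l (n • lam) (n • mu) c) (h : c (n • nu) ≠ 0) :
    ∃ d : ℕ, 0 < d ∧ IsRootCoeff b d ∧ ∀ k : ℕ, d ∣ k →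
      ∃ c' : (b.support → ℤ) →₀ ℤ, IsExpansion b.cartanMatrix l0 l (k • lam) (k • mu) c' ∧
        0 < c' (k • nu) ∧
        ∀ c'', IsExpansion b.cartanMatrix l0 l (k • lam) (k • mu) c'' → c'' = c' := by
  classical
  have := Fintype.ofFinite ι
  obtain ⟨D, h1, -, -, h4, -, h6⟩ := exists_RD0 P b
  obtain ⟨W, _, _, _, _, _, R, rfl⟩ := exists_RD D
  have hC : ∀ i j, (b.cartanMatrix i j : ℝ) = R.rt (R.sr i) j := fun i j => by
    apply Complex.ofReal_injective
    rw [h6, h1, ← P.algebraMap_pairingIn ℤ]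
    simp [RootPairing.Base.cartanMatrixIn_def]
  have hne : Nonempty b.support := by
    have : Nontrivial M := RootPairing.IsIrreducible.nontrivial P
    by_contra h
    rw [not_nonempty_iff] at h
    exact not_subsingleton M b.toWeightBasis.repr.toEquiv.subsingleton
  have hconn : R.Conn := by
    intro p i j hi hp
    refine b.induction_on_cartanMatrix p hi fun a c ha hac => hp a c ha fun h0 => hac ?_
    have h7 := h6 a.1 c
    rw [← h1, h0] at h7
    rw [RootPairing.Base.cartanMatrix_apply_eq_zero_iff_pairing,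
      RootPairing.pairing_eq_zero_iff', ← h1]
    simpa using h7.symm
  obtain ⟨q, hq⟩ := hQ
  obtain ⟨θ, i, d, hd, hθ, hall⟩ := R.refined hC hconn h0 l hl hm (q := q)
    (funext fun j => by simpa [Finset.sum_apply] using hq j) hn hc h
  exact ⟨d, hd, ⟨θ, R.cf θ, i, h4 θ, hθ⟩, hall⟩

end Pool.Agent.Results.MP_1e3767_al.Refined
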