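import Pool.Agent.Lib.MP_1e3767_al.LieMark
import Pool.Agent.Lib.MP_1e3767_al.Stmt
import Pool.Agent.Lib.MP_1e3767_al.BridgeW
import Pool.Agent.Lib.MP_1e3767_al.BridgeR
import Pool.Agent.Lib.MP_1e3767_al.BridgeL

/-!
For a complex simple Lie algebra every triple of the saturated semigroup lies in the tensor
product semigroup after multiplication by a single root coefficient.
-/

namespace Pool.Agent.Results.MP_1e3767_al.SatMark

open LieAlgebra LieAlgebra.IsKilling Pool.Agent.Lib.MP_1e3767_al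

universe u v

theorem result {L : Type u} [LieRing L] [LieAlgebra ℂ L] [Module.Finite ℂ L] [IsSimple ℂ L]
    (H : LieSubalgebra ℂ L) [H.IsCartanSubalgebra] (b : (rootSystem H).Base)
    (lam mu nu : Module.Dual ℂ H) (hl : IsDomInt b lam) (hm : IsDomInt b mu) (hn : IsDomInt b nu)
    (hQ : InRootLattice (rootSystem H) (lam + mu + nu)) (N : ℕ) (hN : 0 < N)
    (h : SomeInv.{u, v} b (Subtype.val : H → L) (N • lam) (N • mu) (N • nu)) :
    ∃ d : ℕ, 0 < d ∧ IsRootCoeff b d ∧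
      ∀ k : ℕ, d ∣ k → AllInv.{u, v} b (Subtype.val : H → L) (k • lam) (k • mu) (k • nu) := by
  obtain ⟨A, _, _, _, _, B, _, _, _, _, C, _, _, _, _, hA, hB, hC, hinv⟩ := h
  classical
  obtain ⟨D, h1, h2, h3, h4, h5, h6⟩ := exists_RD0 (rootSystem H) b
  obtain ⟨T, hT1, hT2⟩ := exists_real H b D h1 h3 h5 h6
  obtain ⟨W, _, _, _, _, _, R, rfl⟩ := exists_RD D
  have coord : ∀ φ : Module.Dual ℂ H, IsDomInt b φ → ∃ x : b.support → ℝ, Dom x ∧ IntV x ∧
      ∀ i, (x i : ℂ) = φ ((rootSystem H).coroot i.1) := by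
    intro φ hφ
    choose n hn using fun i : b.support => hφ i.1 i.2
    exact ⟨fun i => n i, fun i => Nat.cast_nonneg _, fun i => ⟨n i, by simp⟩,
      fun i => Eq.trans (by simp) (hn i).symm⟩
  have hw : ∀ (φ : Module.Dual ℂ H) (x : b.support → ℝ),
      (∀ i, (x i : ℂ) = φ ((rootSystem H).coroot i.1)) → ∀ (n : ℕ) (M : Type v) [AddCommGroup M]
      [Module ℂ M] [LieRingModule L M] [LieModule ℂ L M], IsHighest b (Subtype.val : H → L) (n • φ) M →
      ∃ m : M, T.IsHWv ((n : ℝ) • x) m := by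
    intro φ x hx n M _ _ _ _ hM
    obtain ⟨-, -, m, h0, hwt, hk⟩ := hM
    refine ⟨m, h0, fun i => ?_, fun β hβ => hk β ((h2 β).1 hβ) _
      (fun h => lie_eq_smul_of_mem_rootSpace (hT2 β) h)⟩
    rw [hT1, hwt, h1, rootSystem_toLinearMap_apply, LinearMap.smul_apply, ← hx i]
    simp
  obtain ⟨x, hxd, hxi, hx⟩ := coord lam hl
  obtain ⟨y, hyd, hyi, hy⟩ := coord mu hm
  obtain ⟨z, hzd, hzi, hz⟩ := coord nu hn
  have hQ1 : ∀ φ ∈ Submodule.span ℤ (Set.range (rootSystem H).root), ∃ q, R.InQ q ∧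
      ∀ i, (q i : ℂ) = φ ((rootSystem H).coroot i.1) := by
    intro φ hφ
    induction hφ using Submodule.span_induction with
    | mem φ h =>
      obtain ⟨β, rfl⟩ := h
      exact ⟨R.rt β, R.inQ_rt β, fun i => h6 β i⟩
    | zero => exact ⟨0, R.inQ_zero, fun i => by simp⟩
    | add φ ψ _ _ ih1 ih2 =>
      obtain ⟨q1, a1, b1⟩ := ih1
      obtain ⟨q2, a2, b2⟩ := ih2
      exact ⟨q1 + q2, R.inQ_add a1 a2, fun i => by simp [b1 i, b2 i]⟩
    | smul c φ _ ih =>
      obtain ⟨q, a1, b1⟩ := ih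
      exact ⟨(c : ℝ) • q, R.inQ_zsmul a1 c, fun i => by simp [b1 i]⟩
  have hQ2 : R.InQ (x + y + z) := by
    obtain ⟨q, hq, hq'⟩ := hQ1 _ hQ
    have : x + y + z = q := by
      funext i
      apply Complex.ofReal_injective
      rw [hq' i]
      simp [hx i, hy i, hz i]
    rwa [this]
  have hne : Nonempty b.support := by
    have : Nontrivial (Module.Dual ℂ H) := RootPairing.IsIrreducible.nontrivial (rootSystem H)
    by_contra h
    rw [not_nonempty_iff] at h
    exact not_subsingleton (Module.Dual ℂ H) b.toWeightBasis.repr.toEquiv.subsingleton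
  have hconn : R.Conn := by
    intro p i j hi hp
    refine b.induction_on_cartanMatrix p hi fun a c ha hac => hp a c ha fun h0 => hac ?_
    have h7 := h6 a.1 c
    rw [← h1, h0] at h7
    rw [RootPairing.Base.cartanMatrix_apply_eq_zero_iff_pairing,
      RootPairing.pairing_eq_zero_iff', ← h1]
    simpa using h7.symm
  obtain ⟨a, ha⟩ := hw lam x hx N A hA
  obtain ⟨b1, hb⟩ := hw mu y hy N B hB
  obtain ⟨c, hc⟩ := hw nu z hz N C hC
  have := hA.1; have := hA.2.1; have := hB.1; have := hB.2.1; have := hC.1; have := hC.2.1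
  obtain ⟨θ, i, d, hd, hθ, hall⟩ := T.lie_mark hconn hN hyd hxi hyi hzi hQ2 ha hb hc hinv
  refine ⟨d, hd, ⟨θ, R.cf θ, i, h4 θ, hθ⟩, ?_⟩
  intro k hk A' _ _ _ _ B' _ _ _ _ C' _ _ _ _ hA' hB' hC'
  obtain ⟨a', ha'⟩ := hw lam x hx k A' hA'
  obtain ⟨b', hb'⟩ := hw mu y hy k B' hB'
  obtain ⟨c', hc'⟩ := hw nu z hz k C' hC'
  have := hA'.1; have := hA'.2.1; have := hB'.1; have := hB'.2.1; have := hC'.1
  have := hC'.2.1
  exact (T.inv_triple_iff ha' hb' hc').2 (hall k hk)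

end Pool.Agent.Results.MP_1e3767_al.SatMark
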